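import Pool.Agent.W23.DC.Defs
import Pool.Agent.H442R2.BX.Tu
import Pool.Agent.H442R2.BX.Ks
import Pool.Agent.H442R2.FX.Wf
import Pool.Agent.H442R2.KF.Kfb

/-!
DC project (helper23), task WU: trilinear forms with Kloosterman fractions, one factorable variable,
unbalanced dyadic ranges.
-/

namespace Pool.Agent.W24.DC

open Finset
open Pool.Agent.H442R2
open Pool.Agent.H442R2.KF
open Pool.Agent.H442R2.BX
open Pool.Agent.H442R2.BX.TaskTU

/-- the first part: the factorable variable is the long one -/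
theorem part1 {ε C : ℝ} (hC : ∀ (M S J : ℕ), 1 ≤ M → 1 ≤ S → 1 ≤ J →
    ∀ V : ℝ, 1 ≤ V → ∀ ψ : ℕ → ℝ → ℂ, (∀ j, Wei M V (ψ j)) →
    ∀ k : ℤ, k ≠ 0 → |(k : ℝ)| * J ≤ V * (M : ℝ) ^ 2 →
    ∀ (γ : ℕ → ℕ → ℂ) (β : ℕ → ℂ), (∀ r s, ‖γ r s‖ ≤ 1) → (∀ n, ‖β n‖ ≤ 1) →
    (∀ r s, γ r s ≠ 0 → Squarefree (r * s) ∧ r * s ∈ Ioc M (2 * M + 1)) →
    ‖∑ s ∈ Ico S (2 * S), ∑ r ∈ Icc 1 (2 * M + 1),
      ∑ n ∈ (Ioc M (2 * M + 1)).filter (fun n => Nat.Coprime (r * s) n),
        γ r s * β n * FF ψ k J n (r * s)‖ ^ 2 ≤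
      C * (V * M) ^ ε * V * ((M : ℝ) ^ 4 * J / S +
        (M : ℝ) ^ (7 / 2 : ℝ) * (J : ℝ) ^ 2 * (S : ℝ) ^ (1 / 2 : ℝ)))
    (i k S J : ℕ) (hki : k ≤ i) (hS : 1 ≤ S) (hJ : 1 ≤ J) (V : ℝ) (hV : 1 ≤ V)
    (ψ : ℕ → ℝ → ℂ) (hψ : ∀ j, BX.WeiP ((2 : ℝ) ^ (i + k)) V (ψ j)) (b : ℤ) (hb : b ≠ 0)
    (hbJ : |(b : ℝ)| * J ≤ V * (2 : ℝ) ^ (i + k)) (γ : ℕ → ℕ → ℂ) (β : ℕ → ℂ)
    (hγ : ∀ r s, ‖γ r s‖ ≤ 1) (hβ : ∀ n, ‖β n‖ ≤ 1) (hβo : ∀ n, β n ≠ 0 → Odd n)
    (hγo : ∀ r s, γ r s ≠ 0 →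
        Squarefree (r * s) ∧ Odd (r * s) ∧ r * s ∈ Ioc (2 ^ i) (2 ^ (i + 1))) :
      ‖∑ s ∈ Ico S (2 * S), ∑ r ∈ Icc 1 (2 ^ (i + 1)),
        ∑ n ∈ (Ioc (2 ^ k) (2 ^ (k + 1))).filter (fun n => Nat.Coprime (r * s) n),
          γ r s * β n * FF ψ b J n (r * s)‖ ^ 2 ≤
        C * (V * (2 : ℝ) ^ i) ^ ε * V * (((2 : ℝ) ^ i) ^ 4 * J / S +
          ((2 : ℝ) ^ i) ^ (7 / 2 : ℝ) * (J : ℝ) ^ 2 * (S : ℝ) ^ (1 / 2 : ℝ)) := by
  obtain ⟨v, hkv⟩ : ∃ v : ℕ, k + v = i := ⟨i - k, by omega⟩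
  set D : ℝ := 2 ^ v with hD
  have hD0 : 0 < D := by positivity
  have hMr : (((2 ^ i : ℕ) : ℝ)) = (2 : ℝ) ^ i := by push_cast; rfl
  have hM2 : (((2 ^ i : ℕ) : ℝ)) ^ 2 = (2 : ℝ) ^ (i + k) * D := by
    rw [hMr, hD, ← pow_mul, ← pow_add]
    congr 1
    omega
  have hP0 : (0 : ℝ) < (2 : ℝ) ^ (i + k) := by positivity
  have e2i : (2 : ℕ) ^ (i + 1) = 2 * 2 ^ i := by rw [pow_succ, mul_comm]
  have key := hC (2 ^ i) S J Nat.one_le_two_pow hS hJ V hV
    (fun j t => ψ j (t / 2 ^ (0 + v))) ?_ (b * 2 ^ (0 + v)) ?_ ?_ γ (up v k β)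
    hγ (up_norm v k β hβ) ?_
  · rw [hMr] at key
    refine le_trans (le_of_eq ?_) key
    congr 2
    refine Finset.sum_congr rfl fun s hs => ?_
    have hs1 : 1 ≤ s := by
      rw [Finset.mem_Ico] at hs
      omega
    have hsub : Icc 1 (2 ^ (i + 1)) ⊆ Icc 1 (2 * 2 ^ i + 1) := by
      rw [e2i]
      exact Finset.Icc_subset_Icc_right (by omega)
    rw [← Finset.sum_subset hsub]
    · refine Finset.sum_congr rfl fun r _ => ?_
      rw [Finset.sum_filter, Finset.sum_filter]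
      have hr2 := reindex v k (fun n' => if Nat.Coprime (r * s) n' then
        γ r s * up v k β n' *
        FF (fun j t => ψ j (t / 2 ^ (0 + v))) (b * 2 ^ (0 + v)) J n' (r * s) else 0) ?_
      · rw [hkv] at hr2
        rw [hr2]
        refine Finset.sum_congr rfl fun n hn => ?_
        rw [up_mul v k β n hn]
        by_cases hg0 : γ r s = 0
        · simp [hg0]
        by_cases hn0 : β n = 0
        · simp [hn0]
        obtain ⟨_, hmo, _⟩ := hγo r s hg0
        have hno := hβo n hn0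
        have hnpos : 0 < n := hno.pos
        by_cases hc : Nat.Coprime (r * s) n
        · have hc' := (coprime_scale 0 v (r * s) n (Or.inl rfl) hmo hno).2 hc
          have h3 := FF_scale KS ψ b J 0 v (r * s) n (Or.inl rfl) hnpos hc'
          rw [pow_zero, one_mul] at hc' h3
          rw [if_pos hc, if_pos hc', h3]
        · have hc' : ¬ Nat.Coprime (r * s) (2 ^ v * n) := by
            intro h
            apply hc
            apply (coprime_scale 0 v (r * s) n (Or.inl rfl) hmo hno).1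
            rw [pow_zero, one_mul]
            exact h
          rw [if_neg hc, if_neg hc']
      · intro n' hn'
        have : up v k β n' = 0 := by
          unfold up
          rw [if_neg hn']
        simp [this]
    · intro r hr1 hr2
      have hg0 : γ r s = 0 := by
        by_contra hg0
        obtain ⟨_, _, hm⟩ := hγo r s hg0
        rw [Finset.mem_Ioc] at hm
        rw [Finset.mem_Icc] at hr1 hr2
        have h4 : r ≤ r * s := Nat.le_mul_of_pos_right r (by omega)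
        exact hr2 ⟨hr1.1, h4.trans hm.2⟩
      simp [hg0]
  · intro j
    rw [zero_add]
    refine ⟨?_, ?_⟩
    · intro s hs
      apply (hψ j).bd
      rw [hM2] at hs
      rw [le_div_iff₀ hD0]
      exact hs
    · intro s s' hs hs'
      rw [hM2] at hs hs' ⊢
      have h1 := (hψ j).lip (s / D) (s' / D) (by rwa [le_div_iff₀ hD0]) (by rwa [le_div_iff₀ hD0])
      refine h1.trans (le_of_eq ?_)
      rw [← sub_div, abs_div, abs_of_pos hD0]
      field_simp
  · exact mul_ne_zero hb (by positivity)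
  · rw [hM2]
    push_cast
    rw [abs_mul, abs_of_pos (by positivity : (0 : ℝ) < 2 ^ (0 + v)), zero_add]
    calc |(b : ℝ)| * 2 ^ v * J = |(b : ℝ)| * J * D := by rw [hD]; ring
      _ ≤ V * (2 : ℝ) ^ (i + k) * D := mul_le_mul_of_nonneg_right hbJ hD0.le
      _ = V * ((2 : ℝ) ^ (i + k) * D) := by ring
  · intro r s hg
    obtain ⟨h1, _, h3⟩ := hγo r s hg
    refine ⟨h1, ?_⟩
    rw [Finset.mem_Ioc] at h3 ⊢
    rw [e2i] at h3
    omega

/-- the weights after reciprocity -/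
noncomputable def wt (J : ℕ) (b : ℤ) (ψ : ℕ → ℝ → ℂ) (j : ℕ) (t : ℝ) : ℂ :=
  if j ≤ J then ψ j t * e ((j : ℝ) * b / t) else 0

theorem wt_wei {P V : ℝ} (hP : 0 < P) (hV : 1 ≤ V) (J : ℕ) (b : ℤ) (ψ : ℕ → ℝ → ℂ)
    (hψ : ∀ j, BX.WeiP P V (ψ j)) (hbJ : |(b : ℝ)| * J ≤ V * P) (j : ℕ) :
    BX.WeiP P (8 * V) (wt J b ψ j) := by
  refine ⟨?_, ?_⟩
  · intro t ht
    unfold wt
    split_ifs
    · rw [norm_mul, norm_e, mul_one]
      exact (hψ j).bd t ht
    · simp
  · intro t t' ht ht'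
    unfold wt
    split_ifs with hj
    · have ht0 : 0 < t := hP.trans_le ht
      have ht0' : 0 < t' := hP.trans_le ht'
      have e1 : ψ j t * e ((j : ℝ) * b / t) - ψ j t' * e ((j : ℝ) * b / t') =
          (ψ j t - ψ j t') * e ((j : ℝ) * b / t) +
            ψ j t' * (e ((j : ℝ) * b / t) - e ((j : ℝ) * b / t')) := by ring
      rw [e1]
      have h1 : ‖(ψ j t - ψ j t') * e ((j : ℝ) * b / t)‖ ≤ V * |t - t'| / P := by
        rw [norm_mul, norm_e, mul_one]
        exact (hψ j).lip t t' ht ht'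
      have h2 : ‖ψ j t' * (e ((j : ℝ) * b / t) - e ((j : ℝ) * b / t'))‖
          ≤ 7 * (V * |t - t'| / P) := by
        rw [norm_mul]
        have h3 := (hψ j).bd t' ht'
        have h4 := norm_e_sub_le ((j : ℝ) * b / t) ((j : ℝ) * b / t')
        have h5 : (j : ℝ) * b / t - (j : ℝ) * b / t' = (j : ℝ) * b * ((t' - t) / (t * t')) := by
          field_simp
        have h6 : |(j : ℝ) * b / t - (j : ℝ) * b / t'| ≤ V * |t - t'| / P := by
          rw [h5, abs_mul, abs_div, abs_mul, abs_of_pos (mul_pos ht0 ht0'), abs_sub_comm t' t]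
          have h7 : |(j : ℝ)| * |(b : ℝ)| ≤ V * P := by
            rw [abs_of_nonneg (by positivity : (0 : ℝ) ≤ j)]
            calc (j : ℝ) * |(b : ℝ)| ≤ J * |(b : ℝ)| := by
                  apply mul_le_mul_of_nonneg_right _ (abs_nonneg _)
                  exact_mod_cast hj
              _ = |(b : ℝ)| * J := mul_comm _ _
              _ ≤ V * P := hbJ
          have h8 : |t - t'| / (t * t') ≤ |t - t'| / (P * P) := by
            apply div_le_div_of_nonneg_left (abs_nonneg _) (by positivity)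
            exact mul_le_mul ht ht' hP.le ht0.le
          calc |(j : ℝ)| * |(b : ℝ)| * (|t - t'| / (t * t'))
              ≤ (V * P) * (|t - t'| / (P * P)) := by
                apply mul_le_mul h7 h8 (by positivity) (by positivity)
            _ = V * |t - t'| / P := by field_simp
        have h9 : 2 * Real.pi ≤ 7 := by
          have := Real.pi_lt_d2
          linarith
        have h10 : 0 ≤ V * |t - t'| / P := by positivity
        calc ‖ψ j t'‖ * ‖e ((j : ℝ) * b / t) - e ((j : ℝ) * b / t')‖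
            ≤ 1 * (2 * Real.pi * |(j : ℝ) * b / t - (j : ℝ) * b / t'|) :=
              mul_le_mul h3 h4 (norm_nonneg _) zero_le_one
          _ = 2 * Real.pi * |(j : ℝ) * b / t - (j : ℝ) * b / t'| := one_mul _
          _ ≤ 7 * (V * |t - t'| / P) :=
              mul_le_mul h9 h6 (abs_nonneg _) (by norm_num)
      refine (norm_add_le _ _).trans ((add_le_add h1 h2).trans (le_of_eq ?_))
      ring
    · simp only [sub_zero, norm_zero]
      positivity

theorem conj_kf (b m : ℤ) (n : ℕ) : (starRingEnd ℂ) (kf b m n) = kf (-b) m n := by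
  unfold kf
  rw [conj_e]
  congr 1
  push_cast
  ring

/-- reciprocity for the kernel -/
theorem FF_recip (ψ : ℕ → ℝ → ℂ) (b : ℤ) (J m n : ℕ) (hm : 0 < m) (hn : 0 < n)
    (h : Nat.Coprime m n) : FF ψ b J n m = FF (wt J b ψ) (-b) J m n := by
  unfold FF
  refine Finset.sum_congr rfl fun j hj => ?_
  rw [Finset.mem_Icc] at hj
  rw [kf_recip ((j : ℤ) * b) m n hm hn h, conj_kf]
  unfold wt
  rw [if_pos hj.2]
  have e1 : -((j : ℤ) * b) = (j : ℤ) * -b := by ring
  rw [e1, mul_comm ((m : ℝ)) (n : ℝ)]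
  push_cast
  ring

theorem WU : W23.DC.St_WU := by
  intro ε hε
  obtain ⟨C, hC0, hC⟩ := FX.WF ε hε
  have h8 : (1 : ℝ) ≤ (8 : ℝ) ^ ε := Real.one_le_rpow (by norm_num) hε.le
  refine ⟨C * 8 ^ ε * 8, by positivity, ?_⟩
  intro i k S J hS hJ V hV ψ hψ b hb hbJ γ β hγ hβ hβo
  refine ⟨?_, ?_⟩
  · intro hki hγo
    refine (part1 hC i k S J hki hS hJ V hV ψ hψ b hb hbJ γ β hγ hβ hβo hγo).trans ?_
    apply mul_le_mul_of_nonneg_right _ (by positivity)
    apply mul_le_mul_of_nonneg_right _ (by linarith)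
    apply mul_le_mul_of_nonneg_right _ (by positivity)
    nlinarith
  · intro hik hγo
    have hP : (0 : ℝ) < 2 ^ (i + k) := by positivity
    have h1 := part1 hC k i S J hik hS hJ (8 * V) (by linarith) (wt J b ψ)
      (fun j => by
        rw [add_comm k i]
        exact wt_wei hP hV J b ψ hψ hbJ j) (-b) (neg_ne_zero.mpr hb)
      (by
        push_cast
        rw [abs_neg, add_comm k i]
        refine hbJ.trans ?_
        nlinarith [mul_pos (by linarith : (0:ℝ) < V) hP]) γ β hγ hβ hβo hγo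
    have e1 : ∑ s ∈ Ico S (2 * S), ∑ r ∈ Icc 1 (2 ^ (k + 1)),
        ∑ m ∈ (Ioc (2 ^ i) (2 ^ (i + 1))).filter (fun m => Nat.Coprime (r * s) m),
          γ r s * β m * FF ψ b J (r * s) m =
        ∑ s ∈ Ico S (2 * S), ∑ r ∈ Icc 1 (2 ^ (k + 1)),
        ∑ m ∈ (Ioc (2 ^ i) (2 ^ (i + 1))).filter (fun m => Nat.Coprime (r * s) m),
          γ r s * β m * FF (wt J b ψ) (-b) J m (r * s) := by
      refine Finset.sum_congr rfl fun s hs => Finset.sum_congr rfl fun r hr =>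
        Finset.sum_congr rfl fun m hm => ?_
      rw [Finset.mem_Ico] at hs
      rw [Finset.mem_Icc] at hr
      rw [Finset.mem_filter, Finset.mem_Ioc] at hm
      have hm0 : 0 < m := lt_of_le_of_lt (Nat.zero_le _) hm.1.1
      have hrs : 0 < r * s := Nat.mul_pos (by omega) (by omega)
      rw [FF_recip ψ b J m (r * s) hm0 hrs hm.2.symm]
    rw [e1]
    refine h1.trans (le_of_eq ?_)
    rw [mul_assoc 8 V, Real.mul_rpow (by norm_num) (by positivity)]
    ring

end Pool.Agent.W24.DC
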